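import Mathlib
import Pool.Agent.X70.Lions
import Pool.Agent.X70.LionsOne
import Pool.Agent.X70.LionsK23
import Pool.Agent.X151.LionsD
import Pool.Agent.X110.LionsA

/-!
# Lions and contamination: the smallest counterexample to monotonicity

The smallest number of lions and the smallest number of vertices of a graph that can be swept, but
not monotonically.
-/

namespace Pool.Agent.Results.MP_95728c_co.SmallestCounterexample

open Pool.Agent.X70.Lions

/-- `k` lions can sweep `G`, but not monotonically. -/
def Counterexample {n : ℕ} (G : SimpleGraph (Fin n)) [DecidableRel G.Adj] (k : ℕ) : Prop :=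
  1 ≤ k ∧ Sweepable G k ∧ ¬ MonotoneSweepable G k

theorem two_le {n k : ℕ} (G : SimpleGraph (Fin n)) [DecidableRel G.Adj]
    (h : Counterexample G k) : 2 ≤ k := by
  by_contra hlt
  have hk : k = 1 := by have := h.1; omega
  subst hk
  exact h.2.2 (Pool.Agent.X70.LionsOne.one G h.2.1)

theorem five_le {n k : ℕ} (G : SimpleGraph (Fin n)) [DecidableRel G.Adj]
    (h : Counterexample G k) : 5 ≤ n := by
  by_contra hlt
  have h2 := two_le G h
  rcases Nat.eq_zero_or_pos n with hn | hn
  · subst hn
    obtain ⟨P, -, -⟩ := h.2.1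
    exact (P 0 ⟨0, by omega⟩).elim0
  obtain ⟨m, rfl⟩ : ∃ m, n = m + 1 := ⟨n - 1, by omega⟩
  by_cases hbig : m + 1 ≤ k
  · have : Nonempty (Fin (m + 1)) := ⟨0⟩
    exact h.2.2 (Pool.Agent.X151.LionsD.big G k (by rw [Fintype.card_fin]; exact hbig))
  by_cases hpred : k = m
  · subst hpred
    exact h.2.2 (Pool.Agent.X151.LionsD.pred G (by omega) h.2.1)
  have hm : m = 3 := by omega
  have hk : k = 2 := by omega
  subst hm
  subst hk
  exact h.2.2 (Pool.Agent.X110.LionsA.four_two G h.2.1)

/-- The least number `k ≥ 1` of lions for which some graph can be swept by `k` lions but has no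
monotonic sweep by `k` lions is `2`, and the least number of vertices of such a graph (over all
`k ≥ 1`) is `5`; both are attained by `K_{2,3}` and two lions. -/
theorem result :
    IsLeast {k : ℕ | ∃ (n : ℕ) (G : SimpleGraph (Fin n)) (_ : DecidableRel G.Adj),
      Counterexample G k} 2 ∧
    IsLeast {n : ℕ | ∃ (G : SimpleGraph (Fin n)) (_ : DecidableRel G.Adj) (k : ℕ),
      Counterexample G k} 5 ∧
    Counterexample Pool.Agent.X70.LionsK23.K23 2 := by
  have hex : Counterexample Pool.Agent.X70.LionsK23.K23 2 :=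
    ⟨by norm_num, Pool.Agent.X70.LionsK23.sweep_K23, Pool.Agent.X70.LionsK23.not_monotone_K23⟩
  refine ⟨⟨⟨5, _, _, hex⟩, ?_⟩, ⟨⟨_, _, 2, hex⟩, ?_⟩, hex⟩
  · rintro k ⟨n, G, hd, h⟩
    exact two_le G h
  · rintro n ⟨G, hd, k, h⟩
    exact five_le G h

end Pool.Agent.Results.MP_95728c_co.SmallestCounterexample
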